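import Pool.Agent.H28.BR.Stm3
import Pool.Agent.H28.BR.CLX

set_option autoImplicit false

/-! Project BR3 (helper28), module CL2 (helper40): the second moment twisted by `e(θ d)` in one residue class of one
family. -/

namespace Pool.Agent.H40.BR

open Finset Filter Topology MeasureTheory Pool.Agent.H306R2.RZ Pool.Agent.H306R2.RG
  Pool.Agent.Q122.FM Pool.Agent.H28.BR Pool.Agent.H28.BR3
open Pool.Agent.Helper112 (ee)

noncomputable section

theorem parok {φ : FD} (hφ : Fam φ) : (par φ).ok := by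
  obtain ⟨ε, hε, h⟩ := hφ
  rcases hε with rfl | rfl <;> rcases h with rfl | rfl | rfl | rfl <;>
    simp [Par.ok, par, F8, F4, F1]

theorem gmpos (φ : FD) : 0 < gm (1 / 2 + φ.a) := by
  unfold gm
  have h1 : (0 : ℝ) < (1 / 2 + φ.a) / 2 := by positivity
  exact mul_pos (Real.rpow_pos_of_pos Real.pi_pos _) (Real.Gamma_pos_of_pos h1)

/-- `OFF` in the limit -/
theorem offinf (off : S_OFF) (lima : S_LIMA) {θ : ℝ} (hθ : Irrational θ) {p : Par} (hp : p.ok) {c : ℕ}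
    (hc8 : c < 8) (hco : Odd c) {a : ℕ} (ha : 1 ≤ a) {δ : ℝ} (hδ : 0 < δ) :
    ∃ X0 : ℕ, ∀ X : ℕ, X0 ≤ X →
    ‖∑ d ∈ (Icc 1 X).filter (fun d => a ^ 2 ∣ d ∧ d % 8 = c),
      ee (θ * d) * ((Einf p d (1 / (p.r * (d : ℝ))) ^ 2 : ℝ) : ℂ)‖ ≤ δ * (X * lg X ^ 3) := by
  obtain ⟨X0, h⟩ := off θ hθ p hp c hc8 hco a ha δ hδ
  refine ⟨X0, fun X hX => ?_⟩
  have hr : (1 : ℝ) ≤ p.r := by exact_mod_cast hp.2.1.1
  have ht : Tendsto (fun N : ℕ => ‖∑ d ∈ (Icc 1 X).filter (fun d => a ^ 2 ∣ d ∧ d % 8 = c),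
      ee (θ * d) * ((EA p N d (1 / (p.r * (d : ℝ))) ^ 2 : ℝ) : ℂ)‖) atTop
      (𝓝 ‖∑ d ∈ (Icc 1 X).filter (fun d => a ^ 2 ∣ d ∧ d % 8 = c),
      ee (θ * d) * ((Einf p d (1 / (p.r * (d : ℝ))) ^ 2 : ℝ) : ℂ)‖) := by
    refine (tendsto_finsetSum _ fun d hd => ?_).norm
    rw [mem_filter, mem_Icc] at hd
    have hd1 : (1 : ℝ) ≤ d := by exact_mod_cast hd.1.1
    have hz : 0 < 1 / (p.r * (d : ℝ)) := by positivity
    exact tendsto_const_nhds.mul
      ((Complex.continuous_ofReal.tendsto _).comp ((lima p hp d _ hz).pow 2))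
  exact le_of_tendsto ht (Eventually.of_forall fun N => h X N hX)

theorem lg_mono {X Y : ℕ} (hX : 1 ≤ X) (h : X ≤ Y) : lg X ≤ lg Y := by
  unfold lg
  have h1 : (0 : ℝ) < X := by exact_mod_cast hX
  have := Real.log_le_log h1 (by exact_mod_cast h : (X : ℝ) ≤ Y)
  linarith

theorem lg_tendsto : Tendsto (fun X : ℕ => lg X) atTop atTop := by
  unfold lg
  exact tendsto_atTop_add_const_left _ _ (Real.tendsto_log_atTop.comp tendsto_natCast_atTop_atTop)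

/-- all the squarefree numbers in one class -/
theorem cl2a (off : S_OFF) (tail : S_TAIL) (lima : S_LIMA) (φ : FD) (hφ : Fam φ) (c : ℕ) (hc8 : c < 8)
    (hco : Odd c) (hA : ∀ d : ℕ, d % 8 = c → Squarefree d → d ≠ 1 → φ.A d) (θ : ℝ) (hθ : Irrational θ)
    (δ : ℝ) (hδ : 0 < δ) :
    ∃ X0 : ℕ, ∀ X : ℕ, X0 ≤ X →
    ‖∑ d ∈ (Icc 1 X).filter (fun d => d % 8 = c ∧ Squarefree d),
      ee (θ * d) * ((Einf (par φ) d (1 / (φ.r * (d : ℝ))) ^ 2 : ℝ) : ℂ)‖ ≤ 3 * δ * (X * lg X ^ 3) := by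
  have hp := parok hφ
  obtain ⟨C, hC, tail⟩ := tail φ hφ c hc8 hco hA
  -- the choice of `A`
  obtain ⟨A, hA1, hAC⟩ : ∃ A : ℕ, 1 ≤ A ∧ C / (A : ℝ) ^ (1 / 4 : ℝ) ≤ δ := by
    have h1 : Tendsto (fun A : ℕ => C / (A : ℝ) ^ (1 / 4 : ℝ)) atTop (𝓝 0) :=
      Tendsto.div_atTop tendsto_const_nhds
        ((tendsto_rpow_atTop (by norm_num : (0 : ℝ) < 1 / 4)).comp tendsto_natCast_atTop_atTop)
    obtain ⟨A, h2, h3⟩ := ((h1.eventually (gt_mem_nhds hδ)).and (eventually_ge_atTop 1)).exists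
    exact ⟨A, h3, h2.le⟩
  have hA0 : (0 : ℝ) < A := by exact_mod_cast hA1
  have hoff : ∀ a : ℕ, ∃ X0 : ℕ, 1 ≤ a → ∀ X : ℕ, X0 ≤ X →
      ‖∑ d ∈ (Icc 1 X).filter (fun d => a ^ 2 ∣ d ∧ d % 8 = c),
        ee (θ * d) * ((Einf (par φ) d (1 / ((par φ).r * (d : ℝ))) ^ 2 : ℝ) : ℂ)‖ ≤
        δ / A * (X * lg X ^ 3) := by
    intro a
    by_cases ha : 1 ≤ a
    · obtain ⟨X0, h⟩ := offinf off lima hθ hp hc8 hco ha (div_pos hδ hA0)
      exact ⟨X0, fun _ => h⟩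
    · exact ⟨0, fun h => absurd h ha⟩
  choose F hF using hoff
  obtain ⟨X1, hX1⟩ := eventually_atTop.1 (lg_tendsto.eventually (eventually_ge_atTop (C / δ)))
  refine ⟨(Icc 1 A).sup F + X1 + 1, fun X hX => ?_⟩
  have hX1' : 1 ≤ X := by omega
  have hx0 : (0 : ℝ) < X := by exact_mod_cast hX1'
  have hl1 : 1 ≤ lg X := lg_one_le hX1'
  have hlC : C ≤ δ * lg X := by
    have := hX1 X (by omega)
    rw [div_le_iff₀ hδ] at this
    linarith
  set f : ℕ → ℂ := fun d => ee (θ * d) * ((Einf (par φ) d (1 / (φ.r * (d : ℝ))) ^ 2 : ℝ) : ℂ) with hf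
  have hfn : ∀ d, ‖f d‖ = Einf (par φ) d (1 / (φ.r * (d : ℝ))) ^ 2 := by
    intro d
    rw [hf]
    simp only
    rw [norm_mul, norm_ee, one_mul, Complex.norm_real, Real.norm_of_nonneg (sq_nonneg _)]
  have hdec : ∑ d ∈ (Icc 1 X).filter (fun d => d % 8 = c ∧ Squarefree d), f d =
      ∑ d ∈ (Icc 1 X).filter (fun d => d % 8 = c), (RA A d : ℂ) * f d +
      ∑ a ∈ Icc 1 A, (((ArithmeticFunction.moebius a : ℤ) : ℝ) : ℂ) *
        ∑ d ∈ (Icc 1 X).filter (fun d => a ^ 2 ∣ d ∧ d % 8 = c), f d := by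
    have h2 : ∑ a ∈ Icc 1 A, (((ArithmeticFunction.moebius a : ℤ) : ℝ) : ℂ) *
        ∑ d ∈ (Icc 1 X).filter (fun d => a ^ 2 ∣ d ∧ d % 8 = c), f d =
        ∑ d ∈ (Icc 1 X).filter (fun d => d % 8 = c),
          ((∑ a ∈ (Icc 1 A).filter (fun a => a ^ 2 ∣ d),
            ((ArithmeticFunction.moebius a : ℤ) : ℝ) : ℝ) : ℂ) * f d := by
      have h3 : ∀ a ∈ Icc 1 A, (((ArithmeticFunction.moebius a : ℤ) : ℝ) : ℂ) *
          ∑ d ∈ (Icc 1 X).filter (fun d => a ^ 2 ∣ d ∧ d % 8 = c), f d =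
          ∑ d ∈ (Icc 1 X).filter (fun d => d % 8 = c),
            if a ^ 2 ∣ d then (((ArithmeticFunction.moebius a : ℤ) : ℝ) : ℂ) * f d else 0 := by
        intro a _
        rw [mul_sum, ← sum_filter, filter_filter]
        refine sum_congr ?_ fun _ _ => rfl
        ext d
        simp only [mem_filter]
        tauto
      rw [sum_congr rfl h3, sum_comm]
      refine sum_congr rfl fun d _ => ?_
      rw [← sum_filter, ← sum_mul, Complex.ofReal_sum]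
    rw [h2, ← sum_add_distrib, ← filter_filter, sum_filter]
    refine sum_congr rfl fun d _ => ?_
    rw [← add_mul, ← Complex.ofReal_add]
    have h1 : RA A d + ∑ a ∈ (Icc 1 A).filter (fun a => a ^ 2 ∣ d),
        ((ArithmeticFunction.moebius a : ℤ) : ℝ) = if Squarefree d then 1 else 0 := by
      unfold RA
      ring
    rw [h1]
    split_ifs <;> simp
  have hXl : 0 ≤ X * lg X ^ 3 := by positivity
  have p1 : ‖∑ d ∈ (Icc 1 X).filter (fun d => d % 8 = c), (RA A d : ℂ) * f d‖ ≤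
      2 * δ * (X * lg X ^ 3) := by
    calc ‖∑ d ∈ (Icc 1 X).filter (fun d => d % 8 = c), (RA A d : ℂ) * f d‖
        ≤ ∑ d ∈ (Icc 1 X).filter (fun d => d % 8 = c), |RA A d| *
            Einf (par φ) d (1 / (φ.r * (d : ℝ))) ^ 2 := by
          refine (norm_sum_le _ _).trans (sum_le_sum fun d _ => ?_)
          rw [norm_mul, hfn, Complex.norm_real, Real.norm_eq_abs]
      _ ≤ C * (X * lg X ^ 3 / (A : ℝ) ^ (1 / 4 : ℝ) + X * lg X ^ 2) := tail A X hA1 hX1'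
      _ = C / (A : ℝ) ^ (1 / 4 : ℝ) * (X * lg X ^ 3) + C * (X * lg X ^ 2) := by ring
      _ ≤ δ * (X * lg X ^ 3) + (δ * lg X) * (X * lg X ^ 2) := by gcongr
      _ = 2 * δ * (X * lg X ^ 3) := by ring
  have p2 : ‖∑ a ∈ Icc 1 A, (((ArithmeticFunction.moebius a : ℤ) : ℝ) : ℂ) *
        ∑ d ∈ (Icc 1 X).filter (fun d => a ^ 2 ∣ d ∧ d % 8 = c), f d‖ ≤ δ * (X * lg X ^ 3) := by
    calc _ ≤ ∑ a ∈ Icc 1 A, δ / A * (X * lg X ^ 3) := by
          refine (norm_sum_le _ _).trans (sum_le_sum fun a ha => ?_)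
          have ha1 : 1 ≤ a := (mem_Icc.1 ha).1
          have hle : F a ≤ (Icc 1 A).sup F := Finset.le_sup ha
          have h1 := hF a ha1 X (by omega)
          have h2 : ‖(((ArithmeticFunction.moebius a : ℤ) : ℝ) : ℂ)‖ ≤ 1 := by
            rw [Complex.norm_real, Real.norm_eq_abs]
            exact_mod_cast ArithmeticFunction.abs_moebius_le_one
          rw [norm_mul]
          calc _ ≤ 1 * (δ / A * (X * lg X ^ 3)) :=
                mul_le_mul h2 h1 (norm_nonneg _) (by norm_num)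
            _ = _ := one_mul _
      _ = δ * (X * lg X ^ 3) := by
          rw [sum_const, Nat.card_Icc, nsmul_eq_mul, Nat.add_sub_cancel]
          field_simp
  rw [hdec]
  calc _ ≤ _ + _ := norm_add_le _ _
    _ ≤ 2 * δ * (X * lg X ^ 3) + δ * (X * lg X ^ 3) := add_le_add p1 p2
    _ = _ := by ring

theorem t_CL2 (off : S_OFF) (tail : S_TAIL) (lima : S_LIMA) (feq : S_FEQ) : S_CL2 := by
  intro φ hφ c hc8 hco hA θ hθ δ hδ
  have hg := gmpos φ
  set g := gm (1 / 2 + φ.a) with hgdef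
  obtain ⟨X1, h1⟩ := cl2a off tail lima φ hφ c hc8 hco hA θ hθ (δ * g ^ 2 / 16) (by positivity)
  set E1 : ℝ := Einf (par φ) 1 (1 / (φ.r * ((1 : ℕ) : ℝ))) ^ 2 with hE1
  obtain ⟨X2, h2⟩ := exists_nat_ge (E1 / (δ * g ^ 2 / 16))
  refine ⟨X1 + X2 + 1, fun X hX => ?_⟩
  have hX1' : 1 ≤ X := by omega
  have hx1 : (1 : ℝ) ≤ X := by exact_mod_cast hX1'
  have hl1 : 1 ≤ lg X := lg_one_le hX1'
  have hfirst := h1 X (by omega)
  -- the point one
  have hE : E1 ≤ δ * g ^ 2 / 16 * (X * lg X ^ 3) := by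
    have h3 : (X2 : ℝ) ≤ X := by exact_mod_cast (by omega : X2 ≤ X)
    have h4 : E1 / (δ * g ^ 2 / 16) ≤ X * lg X ^ 3 := by
      have : (X : ℝ) * 1 ≤ X * lg X ^ 3 :=
        mul_le_mul_of_nonneg_left (one_le_pow₀ hl1) (by linarith)
      linarith
    rw [div_le_iff₀ (by positivity)] at h4
    linarith
  set f : ℕ → ℂ := fun d => ee (θ * d) * ((Einf (par φ) d (1 / (φ.r * (d : ℝ))) ^ 2 : ℝ) : ℂ) with hf
  have hsplit : ‖∑ d ∈ (Icc 1 X).filter (fun d => d % 8 = c ∧ Squarefree d ∧ d ≠ 1), f d‖ ≤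
      ‖∑ d ∈ (Icc 1 X).filter (fun d => d % 8 = c ∧ Squarefree d), f d‖ + E1 := by
    have hf1 : ‖f 1‖ = E1 := by
      rw [hf, hE1]
      simp only
      rw [norm_mul, norm_ee, one_mul, Complex.norm_real, Real.norm_of_nonneg (sq_nonneg _)]
    have h3 : (Icc 1 X).filter (fun d => d % 8 = c ∧ Squarefree d ∧ d ≠ 1) =
        ((Icc 1 X).filter (fun d => d % 8 = c ∧ Squarefree d)).erase 1 := by
      ext d
      simp only [mem_filter, mem_erase]
      tauto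
    rw [h3]
    by_cases h4 : 1 ∈ (Icc 1 X).filter (fun d => d % 8 = c ∧ Squarefree d)
    · rw [Finset.sum_erase_eq_sub h4]
      refine (norm_sub_le _ _).trans ?_
      rw [hf1]
    · rw [Finset.erase_eq_of_notMem h4]
      have : 0 ≤ E1 := sq_nonneg _
      linarith
  have hval : ∀ d ∈ (Icc 1 X).filter (fun d => d % 8 = c ∧ Squarefree d ∧ d ≠ 1),
      ee (θ * d) * ((LLg φ d (1 / 2) ^ 2 : ℝ) : ℂ) = ((4 / g ^ 2 : ℝ) : ℂ) * f d := by
    intro d hd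
    rw [mem_filter] at hd
    have h5 := (feq φ hφ d (hA d hd.2.1 hd.2.2.1 hd.2.2.2) hd.2.2.1).1
    have h6 : LLg φ d (1 / 2) ^ 2 = 4 / g ^ 2 * Einf (par φ) d (1 / (φ.r * (d : ℝ))) ^ 2 := by
      rw [h5, ← hgdef]
      field_simp
      ring
    rw [h6, hf]
    push_cast
    ring
  rw [sum_congr rfl hval, ← mul_sum, norm_mul, Complex.norm_real,
    Real.norm_of_nonneg (by positivity : (0 : ℝ) ≤ 4 / g ^ 2)]
  calc 4 / g ^ 2 * ‖∑ d ∈ (Icc 1 X).filter (fun d => d % 8 = c ∧ Squarefree d ∧ d ≠ 1), f d‖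
      ≤ 4 / g ^ 2 * (3 * (δ * g ^ 2 / 16) * (X * lg X ^ 3) + δ * g ^ 2 / 16 * (X * lg X ^ 3)) := by
        refine mul_le_mul_of_nonneg_left ?_ (by positivity)
        exact hsplit.trans (add_le_add hfirst hE)
    _ = δ * (X * lg X ^ 3) := by
        field_simp
        ring

end

end Pool.Agent.H40.BR
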