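import Pool.Agent.H28.BR.Stm5
import Pool.Agent.H40.BR.Cl2

set_option autoImplicit false

/-! Project BR4 (helper28), module CL0 (helper40): the asymptotic formula for the second moment in one residue class of
one family. -/

namespace Pool.Agent.H40.BR4

open Finset Filter Topology MeasureTheory Pool.Agent.H306R2.RZ Pool.Agent.H306R2.RG
  Pool.Agent.Q122.FM Pool.Agent.H28.BR Pool.Agent.H28.BR3 Pool.Agent.H28.BR4
open Pool.Agent.H40.BR (parok gmpos lg_tendsto)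

noncomputable section

theorem hh_nonneg (d : ℕ) : 0 ≤ hh d := by
  unfold hh
  refine mul_nonneg (sq_nonneg _) (prod_nonneg fun p _ => ?_)
  positivity

theorem hh_le_one (d : ℕ) : hh d ≤ 1 := by
  unfold hh
  have h1 : ((d.totient : ℝ) / d) ^ 2 ≤ 1 := by
    refine pow_le_one₀ (by positivity) ?_
    exact div_le_one_of_le₀ (by exact_mod_cast Nat.totient_le d) (Nat.cast_nonneg d)
  have h2 : ∏ p ∈ d.primeFactors, (p : ℝ) / ((p : ℝ) + 1) ≤ 1 := by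
    refine prod_le_one (fun p _ => by positivity) fun p _ => ?_
    exact div_le_one_of_le₀ (by linarith) (by positivity)
  have h3 : 0 ≤ ∏ p ∈ d.primeFactors, (p : ℝ) / ((p : ℝ) + 1) :=
    prod_nonneg fun p _ => by positivity
  calc _ ≤ 1 * 1 := mul_le_mul h1 h2 h3 (by norm_num)
    _ = 1 := one_mul _

theorem MD_bd (p : Par) (hp : p.ok) : ∃ M : ℝ, 0 ≤ M ∧ ∀ X d : ℕ, 1 ≤ d → d ≤ X →
    |MD p d| ≤ M * lg X ^ 3 := by
  refine ⟨gm (1 / 2 + p.a) ^ 2 * S0 p.η ^ 2 * 1 * 343 / (96 * Real.pi ^ 2), by positivity,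
    fun X d hd hdX => ?_⟩
  have hd1 : (1 : ℝ) ≤ d := by exact_mod_cast hd
  have hdX' : (d : ℝ) ≤ X := by exact_mod_cast hdX
  have hr1 : (1 : ℝ) ≤ p.r := by exact_mod_cast hp.2.1.1
  have hr8 : (p.r : ℝ) ≤ 8 := by exact_mod_cast hp.2.1.2
  have hl0 : 0 ≤ Real.log (p.r * (d : ℝ)) := Real.log_nonneg (by nlinarith)
  have hlX : 0 ≤ Real.log X := Real.log_nonneg (by linarith)
  have hl1 : Real.log (p.r * (d : ℝ)) ≤ 7 * lg X := by
    rw [Real.log_mul (by linarith) (by linarith)]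
    have h1 : Real.log p.r ≤ 7 := by
      have := Real.log_le_sub_one_of_pos (x := (p.r : ℝ)) (by linarith)
      linarith
    have h2 : Real.log d ≤ Real.log X := Real.log_le_log (by linarith) hdX'
    unfold lg
    linarith
  have h3 : Real.log (p.r * (d : ℝ)) ^ 3 ≤ 343 * lg X ^ 3 := by
    calc Real.log (p.r * (d : ℝ)) ^ 3 ≤ (7 * lg X) ^ 3 := pow_le_pow_left₀ hl0 hl1 3
      _ = 343 * lg X ^ 3 := by ring
  have hh0 := hh_nonneg d
  have hh1 := hh_le_one d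
  unfold MD
  rw [abs_of_nonneg (by positivity)]
  calc gm (1 / 2 + p.a) ^ 2 * S0 p.η ^ 2 * hh d * Real.log (p.r * (d : ℝ)) ^ 3 / (96 * Real.pi ^ 2)
      ≤ gm (1 / 2 + p.a) ^ 2 * S0 p.η ^ 2 * 1 * (343 * lg X ^ 3) / (96 * Real.pi ^ 2) := by gcongr
    _ = _ := by ring

theorem sum_RA (ra : S_RA) {A : ℕ} (hA : 1 ≤ A) (X : ℕ) :
    ∑ d ∈ Icc 1 X, |RA A d| ≤ 4 * X / Real.sqrt A := by
  have h1 := ra A X hA
  have hA0 : (0 : ℝ) < A := by exact_mod_cast hA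
  have h2 : (∑ d ∈ Icc 1 X, |RA A d|) ^ 2 ≤ (X : ℝ) * ∑ d ∈ Icc 1 X, |RA A d| ^ 2 := by
    have := sq_sum_le_card_mul_sum_sq (s := Icc 1 X) (f := fun d => |RA A d|)
    simpa using this
  have h3 : (∑ d ∈ Icc 1 X, |RA A d|) ^ 2 ≤ (4 * X / Real.sqrt A) ^ 2 := by
    calc _ ≤ (X : ℝ) * ∑ d ∈ Icc 1 X, |RA A d| ^ 2 := h2
      _ = (X : ℝ) * ∑ d ∈ Icc 1 X, RA A d ^ 2 := by
          congr 1
          exact sum_congr rfl fun d _ => sq_abs _
      _ ≤ (X : ℝ) * (16 * X / A) := mul_le_mul_of_nonneg_left h1 (Nat.cast_nonneg X)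
      _ = (4 * X / Real.sqrt A) ^ 2 := by
          rw [div_pow, Real.sq_sqrt hA0.le]
          ring
  exact (pow_le_pow_iff_left₀ (sum_nonneg fun d _ => abs_nonneg _) (by positivity) two_ne_zero).1 h3

theorem dec (f : ℕ → ℝ) (A X c : ℕ) :
    ∑ d ∈ (Icc 1 X).filter (fun d => d % 8 = c ∧ Squarefree d), f d =
      ∑ d ∈ (Icc 1 X).filter (fun d => d % 8 = c), RA A d * f d +
      ∑ a ∈ Icc 1 A, ((ArithmeticFunction.moebius a : ℤ) : ℝ) *
        ∑ d ∈ (Icc 1 X).filter (fun d => a ^ 2 ∣ d ∧ d % 8 = c), f d := by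
  have h2 : ∑ a ∈ Icc 1 A, ((ArithmeticFunction.moebius a : ℤ) : ℝ) *
      ∑ d ∈ (Icc 1 X).filter (fun d => a ^ 2 ∣ d ∧ d % 8 = c), f d =
      ∑ d ∈ (Icc 1 X).filter (fun d => d % 8 = c),
        (∑ a ∈ (Icc 1 A).filter (fun a => a ^ 2 ∣ d), ((ArithmeticFunction.moebius a : ℤ) : ℝ)) * f d := by
    have h3 : ∀ a ∈ Icc 1 A, ((ArithmeticFunction.moebius a : ℤ) : ℝ) *
        ∑ d ∈ (Icc 1 X).filter (fun d => a ^ 2 ∣ d ∧ d % 8 = c), f d =
        ∑ d ∈ (Icc 1 X).filter (fun d => d % 8 = c),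
          if a ^ 2 ∣ d then ((ArithmeticFunction.moebius a : ℤ) : ℝ) * f d else 0 := by
      intro a _
      rw [mul_sum, ← sum_filter, filter_filter]
      refine sum_congr ?_ fun _ _ => rfl
      ext d
      simp only [mem_filter]
      tauto
    rw [sum_congr rfl h3, sum_comm]
    refine sum_congr rfl fun d _ => ?_
    rw [← sum_filter, ← sum_mul]
  rw [h2, ← sum_add_distrib, ← filter_filter, sum_filter]
  refine sum_congr rfl fun d _ => ?_
  rw [← add_mul]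
  have h1 : RA A d + ∑ a ∈ (Icc 1 A).filter (fun a => a ^ 2 ∣ d),
      ((ArithmeticFunction.moebius a : ℤ) : ℝ) = if Squarefree d then 1 else 0 := by
    unfold RA
    ring
  rw [h1]
  split_ifs <;> simp

/-- all the squarefree numbers of one class -/
theorem core (av0 : S_AV0) (tail : S_TAIL) (ra : S_RA) (φ : FD) (hφ : Fam φ) (c : ℕ) (hc8 : c < 8)
    (hco : Odd c) (hA : ∀ d : ℕ, d % 8 = c → Squarefree d → d ≠ 1 → φ.A d) (δ : ℝ) (hδ : 0 < δ) :
    ∃ X0 : ℕ, ∀ X : ℕ, X0 ≤ X →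
    |∑ d ∈ (Icc 1 X).filter (fun d => d % 8 = c ∧ Squarefree d),
      (Einf (par φ) d (1 / (φ.r * (d : ℝ))) ^ 2 - MD (par φ) d)| ≤ 2 * δ * (X * lg X ^ 3) := by
  have hp := parok hφ
  obtain ⟨C, hC, tail⟩ := tail φ hφ c hc8 hco hA
  obtain ⟨C0, hC0, av0⟩ := av0
  obtain ⟨M, hM, hMD⟩ := MD_bd (par φ) hp
  obtain ⟨A, hA1, hAC⟩ : ∃ A : ℕ, 1 ≤ A ∧ C / (A : ℝ) ^ (1 / 4 : ℝ) + 4 * M / (A : ℝ) ^ (1 / 2 : ℝ) ≤ δ := by
    have h1 : Tendsto (fun A : ℕ => C / (A : ℝ) ^ (1 / 4 : ℝ)) atTop (𝓝 0) :=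
      Tendsto.div_atTop tendsto_const_nhds
        ((tendsto_rpow_atTop (by norm_num : (0 : ℝ) < 1 / 4)).comp tendsto_natCast_atTop_atTop)
    have h1' : Tendsto (fun A : ℕ => 4 * M / (A : ℝ) ^ (1 / 2 : ℝ)) atTop (𝓝 0) :=
      Tendsto.div_atTop tendsto_const_nhds
        ((tendsto_rpow_atTop (by norm_num : (0 : ℝ) < 1 / 2)).comp tendsto_natCast_atTop_atTop)
    have h1'' := h1.add h1'
    rw [add_zero] at h1''
    obtain ⟨A, h2, h3⟩ := ((h1''.eventually (gt_mem_nhds hδ)).and (eventually_ge_atTop 1)).exists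
    exact ⟨A, h3, h2.le⟩
  have hA0 : (0 : ℝ) < A := by exact_mod_cast hA1
  obtain ⟨X1, hX1⟩ := eventually_atTop.1
    (lg_tendsto.eventually (eventually_ge_atTop ((C + A * C0) / δ)))
  refine ⟨X1 + 1, fun X hX => ?_⟩
  have hX1' : 1 ≤ X := by omega
  have hx0 : (0 : ℝ) < X := by exact_mod_cast hX1'
  have hl1 : 1 ≤ lg X := lg_one_le hX1'
  have hlC : C + A * C0 ≤ δ * lg X := by
    have := hX1 X (by omega)
    rw [div_le_iff₀ hδ] at this
    linarith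
  have p1 : |∑ d ∈ (Icc 1 X).filter (fun d => d % 8 = c),
      RA A d * (Einf (par φ) d (1 / (φ.r * (d : ℝ))) ^ 2 - MD (par φ) d)| ≤
      C * (X * lg X ^ 3 / (A : ℝ) ^ (1 / 4 : ℝ) + X * lg X ^ 2) +
        M * lg X ^ 3 * (4 * X / (A : ℝ) ^ (1 / 2 : ℝ)) := by
    calc |∑ d ∈ (Icc 1 X).filter (fun d => d % 8 = c),
          RA A d * (Einf (par φ) d (1 / (φ.r * (d : ℝ))) ^ 2 - MD (par φ) d)|
        ≤ ∑ d ∈ (Icc 1 X).filter (fun d => d % 8 = c),
            (|RA A d| * Einf (par φ) d (1 / (φ.r * (d : ℝ))) ^ 2 + M * lg X ^ 3 * |RA A d|) := by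
          refine (abs_sum_le_sum_abs _ _).trans (sum_le_sum fun d hd => ?_)
          rw [mem_filter, mem_Icc] at hd
          have h1 := hMD X d hd.1.1 hd.1.2
          rw [abs_mul]
          have h2 : |Einf (par φ) d (1 / (φ.r * (d : ℝ))) ^ 2 - MD (par φ) d| ≤
              Einf (par φ) d (1 / (φ.r * (d : ℝ))) ^ 2 + M * lg X ^ 3 := by
            refine (abs_sub _ _).trans ?_
            rw [abs_of_nonneg (sq_nonneg (Einf (par φ) d (1 / (φ.r * (d : ℝ)))))]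
            linarith
          calc _ ≤ |RA A d| * (Einf (par φ) d (1 / (φ.r * (d : ℝ))) ^ 2 + M * lg X ^ 3) :=
                mul_le_mul_of_nonneg_left h2 (abs_nonneg _)
            _ = _ := by ring
      _ = ∑ d ∈ (Icc 1 X).filter (fun d => d % 8 = c),
            |RA A d| * Einf (par φ) d (1 / (φ.r * (d : ℝ))) ^ 2 +
          M * lg X ^ 3 * ∑ d ∈ (Icc 1 X).filter (fun d => d % 8 = c), |RA A d| := by
          rw [sum_add_distrib, ← mul_sum]
      _ ≤ _ := by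
          refine add_le_add (tail A X hA1 hX1') (mul_le_mul_of_nonneg_left ?_ (by positivity))
          refine le_trans (sum_le_sum_of_subset_of_nonneg (filter_subset _ _)
            fun _ _ _ => abs_nonneg _) ?_
          rw [← Real.sqrt_eq_rpow]
          exact sum_RA ra hA1 X
  have p2 : |∑ a ∈ Icc 1 A, ((ArithmeticFunction.moebius a : ℤ) : ℝ) *
        ∑ d ∈ (Icc 1 X).filter (fun d => a ^ 2 ∣ d ∧ d % 8 = c),
          (Einf (par φ) d (1 / (φ.r * (d : ℝ))) ^ 2 - MD (par φ) d)| ≤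
      A * C0 * (X * lg X ^ 2) := by
    calc _ ≤ ∑ a ∈ Icc 1 A, C0 * (X * lg X ^ 2) := by
          refine (abs_sum_le_sum_abs _ _).trans (sum_le_sum fun a ha => ?_)
          have ha1 : 1 ≤ a := (mem_Icc.1 ha).1
          have h1 : |∑ d ∈ (Icc 1 X).filter (fun d => a ^ 2 ∣ d ∧ d % 8 = c),
              (Einf (par φ) d (1 / (φ.r * (d : ℝ))) ^ 2 - MD (par φ) d)| ≤ C0 * (X * lg X ^ 2) :=
            av0 (par φ) hp c hc8 hco a ha1 X hX1'
          have h2 : |((ArithmeticFunction.moebius a : ℤ) : ℝ)| ≤ 1 := by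
            exact_mod_cast ArithmeticFunction.abs_moebius_le_one
          rw [abs_mul]
          calc _ ≤ 1 * (C0 * (X * lg X ^ 2)) :=
                mul_le_mul h2 h1 (abs_nonneg _) (by norm_num)
            _ = _ := one_mul _
      _ = A * C0 * (X * lg X ^ 2) := by
          rw [sum_const, Nat.card_Icc, nsmul_eq_mul, Nat.add_sub_cancel]
          ring
  rw [dec _ A X c]
  calc _ ≤ _ + _ := abs_add_le _ _
    _ ≤ C * (X * lg X ^ 3 / (A : ℝ) ^ (1 / 4 : ℝ) + X * lg X ^ 2) +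
        M * lg X ^ 3 * (4 * X / (A : ℝ) ^ (1 / 2 : ℝ)) + A * C0 * (X * lg X ^ 2) := add_le_add p1 p2
    _ = (C / (A : ℝ) ^ (1 / 4 : ℝ) + 4 * M / (A : ℝ) ^ (1 / 2 : ℝ)) * (X * lg X ^ 3) +
        (C + A * C0) * (X * lg X ^ 2) := by ring
    _ ≤ δ * (X * lg X ^ 3) + (δ * lg X) * (X * lg X ^ 2) := by gcongr
    _ = _ := by ring

theorem inf_tendsto : Tendsto (fun X : ℕ => (X : ℝ) * lg X ^ 3) atTop atTop := by
  refine tendsto_atTop_mono' _ ?_ tendsto_natCast_atTop_atTop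
  filter_upwards [eventually_ge_atTop 1] with X hX
  have hl1 : 1 ≤ lg X := lg_one_le hX
  calc (X : ℝ) = X * 1 := (mul_one _).symm
    _ ≤ X * lg X ^ 3 := mul_le_mul_of_nonneg_left (one_le_pow₀ hl1) (Nat.cast_nonneg X)

theorem cl0' (av0 : S_AV0) (ml : S_ML) (tail : S_TAIL) (feq : S_FEQ) (ra : S_RA) : S_CL0 := by
  intro φ hφ c hc8 hco hA
  have hp := parok hφ
  have hg := gmpos φ
  set g := gm (1 / 2 + φ.a) with hgdef
  -- the difference
  have T1 : Tendsto (fun X : ℕ => (∑ d ∈ (Icc 1 X).filter (fun d => d % 8 = c ∧ Squarefree d),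
      (Einf (par φ) d (1 / (φ.r * (d : ℝ))) ^ 2 - MD (par φ) d)) / (X * lg X ^ 3)) atTop (𝓝 0) := by
    rw [Metric.tendsto_atTop]
    intro ε hε
    obtain ⟨X0, h0⟩ := core av0 tail ra φ hφ c hc8 hco hA (ε / 4) (by positivity)
    refine ⟨X0 + 1, fun X hX => ?_⟩
    have hx0 : (0 : ℝ) < X := by exact_mod_cast (by omega : 0 < X)
    have hl1 : 1 ≤ lg X := lg_one_le (by omega)
    have hpos : 0 < X * lg X ^ 3 := by positivity
    rw [Real.dist_eq, sub_zero, abs_div, abs_of_pos hpos, div_lt_iff₀ hpos]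
    have := h0 X (by omega)
    nlinarith
  -- the main term
  have T2 : Tendsto (fun X : ℕ => (∑ d ∈ (Icc 1 X).filter (fun d => d % 8 = c ∧ Squarefree d),
      MD (par φ) d) / (X * lg X ^ 3)) atTop
      (𝓝 (g ^ 2 * S0 φ.η ^ 2 / (96 * Real.pi ^ 2) * (HH / 8))) := by
    have h1 := (ml c hc8 hco (par φ).r hp.2.1.1).const_mul (g ^ 2 * S0 φ.η ^ 2 / (96 * Real.pi ^ 2))
    refine h1.congr fun X => ?_
    rw [← mul_div_assoc, mul_sum]
    congr 1
    refine sum_congr rfl fun d _ => ?_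
    show _ = g ^ 2 * S0 φ.η ^ 2 * hh d * Real.log ((par φ).r * (d : ℝ)) ^ 3 / (96 * Real.pi ^ 2)
    ring
  -- the point one
  have T3 : Tendsto (fun X : ℕ => (if 1 % 8 = c then Einf (par φ) 1 (1 / (φ.r * ((1 : ℕ) : ℝ))) ^ 2 else 0) /
      (X * lg X ^ 3)) atTop (𝓝 0) := Tendsto.div_atTop tendsto_const_nhds inf_tendsto
  have T := ((T1.add T2).sub T3).const_mul (4 / g ^ 2)
  have hlim : 4 / g ^ 2 * (0 + g ^ 2 * S0 φ.η ^ 2 / (96 * Real.pi ^ 2) * (HH / 8) - 0) =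
      S0 φ.η ^ 2 * HH / (192 * Real.pi ^ 2) := by
    field_simp
    ring
  rw [hlim] at T
  refine T.congr' ?_
  filter_upwards [eventually_ge_atTop 1] with X hX
  have hval : ∀ d ∈ (Icc 1 X).filter (fun d => d % 8 = c ∧ Squarefree d ∧ d ≠ 1),
      LLg φ d (1 / 2) ^ 2 = 4 / g ^ 2 * Einf (par φ) d (1 / (φ.r * (d : ℝ))) ^ 2 := by
    intro d hd
    rw [mem_filter] at hd
    have h5 := (feq φ hφ d (hA d hd.2.1 hd.2.2.1 hd.2.2.2) hd.2.2.1).1
    rw [h5, ← hgdef]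
    field_simp
    ring
  rw [sum_congr rfl hval, ← mul_sum]
  have hset : ∑ d ∈ (Icc 1 X).filter (fun d => d % 8 = c ∧ Squarefree d ∧ d ≠ 1),
      Einf (par φ) d (1 / (φ.r * (d : ℝ))) ^ 2 =
      ∑ d ∈ (Icc 1 X).filter (fun d => d % 8 = c ∧ Squarefree d), Einf (par φ) d (1 / (φ.r * (d : ℝ))) ^ 2 -
        (if 1 % 8 = c then Einf (par φ) 1 (1 / (φ.r * ((1 : ℕ) : ℝ))) ^ 2 else 0) := by
    have h3 : (Icc 1 X).filter (fun d => d % 8 = c ∧ Squarefree d ∧ d ≠ 1) =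
        ((Icc 1 X).filter (fun d => d % 8 = c ∧ Squarefree d)).erase 1 := by
      ext d
      simp only [mem_filter, mem_erase]
      tauto
    rw [h3]
    by_cases h4 : 1 % 8 = c
    · rw [Finset.sum_erase_eq_sub (by
        rw [mem_filter, mem_Icc]
        exact ⟨⟨le_rfl, hX⟩, h4, squarefree_one⟩), if_pos h4]
    · rw [Finset.erase_eq_of_notMem (by
        rw [mem_filter]
        exact fun h => h4 h.2.1), if_neg h4, sub_zero]
  rw [hset, sum_sub_distrib]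
  ring

/-- CL0 -/
theorem t_CL0 (av0 : S_AV0) (ml : S_ML) : S_CL0 :=
  cl0' av0 ml Pool.Agent.H28.BR3.tail Pool.Agent.H28.BR3.feq Pool.Agent.Q122.FM.ra

end

end Pool.Agent.H40.BR4
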