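import Pool.Agent.H28.BR.Stm5

set_option autoImplicit false

/-! Project BR4 (helper28), module INN (helper40): the inner sum. -/

namespace Pool.Agent.H40.BRI

open Finset Filter Topology MeasureTheory Pool.Agent.H306R2.RZ Pool.Agent.H306R2.RG
  Pool.Agent.H28.BR Pool.Agent.H28.BR3 Pool.Agent.H28.BR4
open Pool.Agent.Q122.FM hiding sg
open Pool.Agent.Q153.FM.Sq (ff ff_nonneg int_r ff_int IG_nonneg IG_anti IG_le)

noncomputable section

theorem IG_zero (a : ℕ) : IG a 0 = gm (1 / 2 + a) := by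
  unfold IG gm
  have ha : (0 : ℝ) ≤ a := Nat.cast_nonneg a
  have h := Real.integral_rpow_mul_exp_neg_mul_Ioi (a := (1 / 2 + (a : ℝ)) / 2) (r := Real.pi)
    (by positivity) Real.pi_pos
  have e1 : ((1 / 2 + (a : ℝ)) / 2) - 1 = (a : ℝ) / 2 - 3 / 4 := by ring
  rw [e1] at h
  rw [h, one_div, Real.inv_rpow Real.pi_pos.le, Real.rpow_neg Real.pi_pos.le]

theorem IG_sub0 (a : ℕ) {v : ℝ} (hv : 0 < v) (hv1 : v ≤ 1) :
    IG a 0 - IG a v ≤ 4 * v ^ (1 / 4 : ℝ) := by
  have ha : (0 : ℝ) ≤ a := Nat.cast_nonneg a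
  have h1 : IG a 0 = (∫ t in Set.Ioc 0 v, ff a t) + IG a v := by
    unfold IG
    rw [← Set.Ioc_union_Ioi_eq_Ioi hv.le]
    exact setIntegral_union (Set.Ioc_disjoint_Ioi le_rfl) measurableSet_Ioi
      ((ff_int a).mono_set Set.Ioc_subset_Ioi_self) ((ff_int a).mono_set (Set.Ioi_subset_Ioi hv.le))
  have h2 : (∫ t in Set.Ioc 0 v, ff a t) ≤ ∫ t in Set.Ioc 0 v, t ^ (-(3 / 4) : ℝ) := by
    refine setIntegral_mono_on ((ff_int a).mono_set Set.Ioc_subset_Ioi_self) ?_ measurableSet_Ioc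
      fun t ht => ?_
    · rw [← intervalIntegrable_iff_integrableOn_Ioc_of_le hv.le]
      exact intervalIntegral.intervalIntegrable_rpow' (by norm_num)
    · have ht0 : 0 < t := ht.1
      have ht1 : t ≤ 1 := ht.2.trans hv1
      unfold ff
      have h3 : t ^ ((a : ℝ) / 2 - 3 / 4) ≤ t ^ (-(3 / 4) : ℝ) :=
        Real.rpow_le_rpow_of_exponent_ge ht0 ht1 (by linarith)
      have h4 : Real.exp (-(Real.pi * t)) ≤ 1 := by
        rw [Real.exp_le_one_iff]
        have := Real.pi_pos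
        nlinarith
      calc t ^ ((a : ℝ) / 2 - 3 / 4) * Real.exp (-(Real.pi * t)) ≤ t ^ (-(3 / 4) : ℝ) * 1 :=
            mul_le_mul h3 h4 (Real.exp_pos _).le (Real.rpow_nonneg ht0.le _)
        _ = _ := mul_one _
  have h3 : ∫ t in Set.Ioc 0 v, t ^ (-(3 / 4) : ℝ) = 4 * v ^ (1 / 4 : ℝ) := by
    rw [← intervalIntegral.integral_of_le hv.le, integral_rpow (Or.inl (by norm_num))]
    rw [show (-(3 / 4) : ℝ) + 1 = 1 / 4 by norm_num, Real.zero_rpow (by norm_num)]
    ring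
  linarith

theorem tail5 {Y N : ℕ} (hY : 1 ≤ Y) : ∑ x ∈ Ioc Y N, 1 / (x : ℝ) ^ 5 ≤ 1 / (Y : ℝ) ^ 4 := by
  have hY0 : (0 : ℝ) < Y := by exact_mod_cast hY
  rcases le_or_gt N Y with h | h
  · rw [Finset.Ioc_eq_empty (by omega), sum_empty]
    positivity
  · have key : ∀ N : ℕ, Y ≤ N → ∑ x ∈ Ioc Y N, 1 / (x : ℝ) ^ 5 ≤ 1 / (Y : ℝ) ^ 4 - 1 / (N : ℝ) ^ 4 := by
      intro N hN
      induction N, hN using Nat.le_induction with
      | base => simp
      | succ N hN ih =>
        rw [Finset.sum_Ioc_succ_top hN]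
        have hN0 : (0 : ℝ) < N := by exact_mod_cast (by omega : 0 < N)
        have h1 : 1 / (((N + 1 : ℕ) : ℝ)) ^ 5 ≤ 1 / (N : ℝ) ^ 4 - 1 / ((N + 1 : ℕ) : ℝ) ^ 4 := by
          push_cast
          rw [div_sub_div _ _ (by positivity) (by positivity), div_le_div_iff₀ (by positivity) (by positivity)]
          have : 0 < (N : ℝ) + 1 := by positivity
          have h2 : (N : ℝ) ^ 4 + (N : ℝ) ^ 3 * 1 ≤ ((N : ℝ) + 1) ^ 4 := by nlinarith [pow_pos hN0 2, pow_pos hN0 3]
          have h3 : (N : ℝ) ^ 4 * ((N : ℝ) + 1) ^ 4 ≤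
              ((((N : ℝ) + 1) ^ 4 - (N : ℝ) ^ 4) * ((N : ℝ) + 1)) * ((N : ℝ) + 1) ^ 4 := by
            refine mul_le_mul_of_nonneg_right ?_ (by positivity)
            nlinarith [pow_pos hN0 2, pow_pos hN0 3, pow_pos hN0 4]
          refine (le_of_eq (one_mul _)).trans (h3.trans (le_of_eq ?_))
          ring
        linarith
    have := key N h.le
    have h2 : 0 ≤ 1 / (N : ℝ) ^ 4 := by positivity
    linarith

/-- the constant of `IG_le` -/
def KK (a : ℕ) : ℝ := ∫ t in Set.Ioi (0 : ℝ), t ^ ((a : ℝ) / 2 - 3 / 4 + 1) * Real.exp (-(Real.pi * t))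

theorem KK_nonneg (a : ℕ) : 0 ≤ KK a :=
  setIntegral_nonneg measurableSet_Ioi fun _ ht =>
    mul_nonneg (Real.rpow_nonneg (le_of_lt ht) _) (Real.exp_pos _).le

theorem term_le (a : ℕ) {x : ℕ} (hx : 1 ≤ x) {w : ℝ} (hw : 0 < w) :
    0 ≤ 1 / (x : ℝ) * IG a (w * (x : ℝ) ^ 4) ∧
      1 / (x : ℝ) * IG a (w * (x : ℝ) ^ 4) ≤ KK a / w * (1 / (x : ℝ) ^ 5) := by
  have hx0 : (0 : ℝ) < x := by exact_mod_cast hx
  refine ⟨mul_nonneg (by positivity) (IG_nonneg a (by positivity)), ?_⟩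
  have h1 := IG_le a (show 0 < w * (x : ℝ) ^ 4 by positivity)
  calc 1 / (x : ℝ) * IG a (w * (x : ℝ) ^ 4) ≤ 1 / (x : ℝ) * (KK a / (w * (x : ℝ) ^ 4)) :=
        mul_le_mul_of_nonneg_left h1 (by positivity)
    _ = KK a / w * (1 / (x : ℝ) ^ 5) := by field_simp

/-- the sum over `x` -/
def TT (a N d g : ℕ) (w : ℝ) : ℝ :=
  ∑ x ∈ (Icc 1 N).filter (fun x => Odd x ∧ x.Coprime d ∧ g * x ^ 2 ≤ N), 1 / (x : ℝ) * IG a (w * (x : ℝ) ^ 4)

theorem TT_nonneg (a N d g : ℕ) {w : ℝ} (hw : 0 < w) : 0 ≤ TT a N d g w := by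
  refine sum_nonneg fun x hx => ?_
  rw [mem_filter, mem_Icc] at hx
  exact (term_le a hx.1.1 hw).1

theorem TT_le (a N d g : ℕ) {w : ℝ} (hw : 0 < w) : TT a N d g w ≤ 2 * KK a / w := by
  have hK := KK_nonneg a
  have h1 : TT a N d g w ≤ ∑ x ∈ Icc 1 N, KK a / w * (1 / (x : ℝ) ^ 5) := by
    unfold TT
    refine (sum_le_sum fun x hx => ?_).trans (sum_le_sum_of_subset_of_nonneg (filter_subset _ _)
      fun x _ _ => by positivity)
    rw [mem_filter, mem_Icc] at hx
    exact (term_le a hx.1.1 hw).2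
  have h2 : ∑ x ∈ Icc 1 N, (1 / (x : ℝ) ^ 5) ≤ 2 := by
    rcases Nat.eq_zero_or_pos N with rfl | hN
    · simp
    · have h3 : Icc 1 N = insert 1 (Ioc 1 N) := by
        ext x
        simp only [mem_Icc, mem_insert, mem_Ioc]
        omega
      rw [h3, sum_insert (by simp)]
      have := tail5 (Y := 1) (N := N) le_rfl
      norm_num at this ⊢
      linarith
  rw [← mul_sum] at h1
  calc _ ≤ _ := h1
    _ ≤ KK a / w * 2 := mul_le_mul_of_nonneg_left h2 (by positivity)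
    _ = _ := by ring

theorem sg_two {d : ℕ} (hd : Odd d) : sg (2 * d) ≤ 2 * sg d := by
  have hd0 : d ≠ 0 := by rintro rfl; exact absurd hd (by decide)
  unfold sg
  have hsub : (2 * d).divisors ⊆ d.divisors ∪ d.divisors.image (fun g => 2 * g) := by
    intro g hg
    rw [Nat.mem_divisors] at hg
    rw [Finset.mem_union, Finset.mem_image]
    by_cases h : 2 ∣ g
    · obtain ⟨k, rfl⟩ := h
      exact Or.inr ⟨k, Nat.mem_divisors.mpr ⟨Nat.dvd_of_mul_dvd_mul_left two_pos hg.1, hd0⟩, rfl⟩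
    · refine Or.inl (Nat.mem_divisors.mpr ⟨?_, hd0⟩)
      exact Nat.Coprime.dvd_of_dvd_mul_left
        ((Nat.Prime.coprime_iff_not_dvd Nat.prime_two).mpr h).symm hg.1
  have hnn : ∀ g : ℕ, (0 : ℝ) ≤ (g : ℝ) ^ (-(3 / 4) : ℝ) := fun g => Real.rpow_nonneg (Nat.cast_nonneg g) _
  calc ∑ g ∈ (2 * d).divisors, (g : ℝ) ^ (-(3 / 4) : ℝ)
      ≤ ∑ g ∈ d.divisors ∪ d.divisors.image (fun g => 2 * g), ((g : ℕ) : ℝ) ^ (-(3 / 4) : ℝ) :=
        Finset.sum_le_sum_of_subset_of_nonneg hsub fun g _ _ => hnn g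
    _ ≤ ∑ g ∈ d.divisors, (g : ℝ) ^ (-(3 / 4) : ℝ) +
        ∑ g ∈ d.divisors.image (fun g => 2 * g), ((g : ℕ) : ℝ) ^ (-(3 / 4) : ℝ) := by
        rw [← Finset.sum_union_inter]
        exact le_add_of_nonneg_right (Finset.sum_nonneg fun g _ => hnn g)
    _ ≤ ∑ g ∈ d.divisors, (g : ℝ) ^ (-(3 / 4) : ℝ) + ∑ g ∈ d.divisors, (g : ℝ) ^ (-(3 / 4) : ℝ) := by
        refine add_le_add le_rfl ?_
        rw [Finset.sum_image fun x _ y _ h => Nat.eq_of_mul_eq_mul_left two_pos h]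
        refine Finset.sum_le_sum fun g hg => ?_
        have hg0 : 0 < g := Nat.pos_of_mem_divisors hg
        have hg0' : (0 : ℝ) < g := by exact_mod_cast hg0
        refine Real.rpow_le_rpow_of_nonpos hg0' ?_ (by norm_num)
        push_cast
        linarith
    _ = _ := by ring

theorem sg_one_le {d : ℕ} (hd : Odd d) : 1 ≤ sg d := by
  have hd0 : d ≠ 0 := by rintro rfl; exact absurd hd (by decide)
  unfold sg
  calc (1 : ℝ) = ((1 : ℕ) : ℝ) ^ (-(3 / 4) : ℝ) := by simp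
    _ ≤ ∑ δ ∈ d.divisors, (δ : ℝ) ^ (-(3 / 4) : ℝ) :=
        Finset.single_le_sum (f := fun δ : ℕ => (δ : ℝ) ^ (-(3 / 4) : ℝ))
          (fun δ _ => Real.rpow_nonneg (Nat.cast_nonneg δ) _) (Nat.one_mem_divisors.2 hd0)

theorem gm_pos (a : ℕ) : 0 < gm (1 / 2 + a) := by
  unfold gm
  have h1 : (0 : ℝ) < (1 / 2 + a) / 2 := by positivity
  exact mul_pos (Real.rpow_pos_of_pos Real.pi_pos _) (Real.Gamma_pos_of_pos h1)

/-- one `i`, `w ≤ 1` -/
theorem one_small (cop : S_COP) (a : ℕ) : ∃ C : ℝ, 0 ≤ C ∧ ∀ (d g N : ℕ) (w : ℝ), Odd d → 0 < w →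
    w ≤ 1 → (∀ x : ℕ, (x : ℝ) ^ 4 * w ≤ 1 → x ≤ N ∧ g * x ^ 2 ≤ N) →
    |TT a N d g w - gm (1 / 2 + a) * ((d.totient : ℝ) / (2 * d)) * (-Real.log w / 4)| ≤ C * sg d := by
  obtain ⟨C0, hC0, cop⟩ := cop
  have hK := KK_nonneg a
  have hG := gm_pos a
  set G0 := gm (1 / 2 + a) with hG0
  refine ⟨4 + 16 * KK a + G0 * (2 * C0) + G0, by positivity, fun d g N w hd hw hw1 hcut => ?_⟩
  have hd0 : d ≠ 0 := by rintro rfl; exact absurd hd (by decide)
  have hd1 : (0 : ℝ) < d := by exact_mod_cast Nat.pos_of_ne_zero hd0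
  have hsg := sg_one_le hd
  set y : ℝ := w ^ (-(1 / 4) : ℝ) with hy
  have hy1 : 1 ≤ y := Real.one_le_rpow_of_pos_of_le_one_of_nonpos hw hw1 (by norm_num)
  have hy4 : y ^ 4 * w = 1 := by
    rw [hy, ← Real.rpow_natCast, ← Real.rpow_mul hw.le]
    norm_num
    rw [Real.rpow_neg_one]
    exact inv_mul_cancel₀ hw.ne'
  set Y : ℕ := ⌊y⌋₊ with hY
  have hY1 : 1 ≤ Y := Nat.le_floor (by simpa using hy1)
  have hY0 : (0 : ℝ) < Y := by exact_mod_cast hY1
  have hYy : (Y : ℝ) ≤ y := Nat.floor_le (by linarith)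
  have hyY : y < Y + 1 := Nat.lt_floor_add_one y
  have hY1' : (1 : ℝ) ≤ Y := by exact_mod_cast hY1
  have hiff : ∀ x : ℕ, x ≤ Y → (x : ℝ) ^ 4 * w ≤ 1 := by
    intro x hx
    have h1 : (x : ℝ) ≤ y := le_trans (by exact_mod_cast hx) hYy
    calc (x : ℝ) ^ 4 * w ≤ y ^ 4 * w := mul_le_mul_of_nonneg_right
          (pow_le_pow_left₀ (Nat.cast_nonneg x) h1 4) hw.le
      _ = 1 := hy4
  set Q := (Icc 1 Y).filter (fun x => x.Coprime (2 * d)) with hQ
  set P := (Icc 1 N).filter (fun x => Odd x ∧ x.Coprime d ∧ g * x ^ 2 ≤ N) with hP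
  have hPQ : P.filter (fun x => x ≤ Y) = Q := by
    ext x
    simp only [hP, hQ, mem_filter, mem_Icc]
    have h2 : x.Coprime (2 * d) ↔ Odd x ∧ x.Coprime d := by
      rw [Nat.coprime_mul_iff_right, Nat.coprime_two_right]
    rw [h2]
    constructor
    · rintro ⟨⟨⟨h3, _⟩, h4, h5, _⟩, h6⟩
      exact ⟨⟨h3, h6⟩, h4, h5⟩
    · rintro ⟨⟨h3, h6⟩, h4, h5⟩
      obtain ⟨h7, h8⟩ := hcut x (hiff x h6)
      exact ⟨⟨⟨h3, h7⟩, h4, h5, h8⟩, h6⟩
  have hsplit : TT a N d g w = ∑ x ∈ Q, 1 / (x : ℝ) * IG a (w * (x : ℝ) ^ 4) +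
      ∑ x ∈ P.filter (fun x => ¬ x ≤ Y), 1 / (x : ℝ) * IG a (w * (x : ℝ) ^ 4) := by
    unfold TT
    rw [← hP, ← hPQ]
    exact (sum_filter_add_sum_filter_not P _ _).symm
  -- the small `x`
  have h1 : |∑ x ∈ Q, 1 / (x : ℝ) * IG a (w * (x : ℝ) ^ 4) - G0 * ∑ x ∈ Q, 1 / (x : ℝ)| ≤ 4 := by
    rw [mul_sum, ← sum_sub_distrib]
    calc |∑ x ∈ Q, (1 / (x : ℝ) * IG a (w * (x : ℝ) ^ 4) - G0 * (1 / (x : ℝ)))|
        ≤ ∑ x ∈ Q, 4 * w ^ (1 / 4 : ℝ) := by
          refine (abs_sum_le_sum_abs _ _).trans (sum_le_sum fun x hx => ?_)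
          rw [hQ, mem_filter, mem_Icc] at hx
          have hx0 : (0 : ℝ) < x := by exact_mod_cast hx.1.1
          have h2 := hiff x hx.1.2
          have h3 : 0 < w * (x : ℝ) ^ 4 := by positivity
          have h4 := IG_sub0 a h3 (by linarith)
          have h5 := IG_anti a le_rfl h3.le
          rw [IG_zero a, ← hG0] at h4 h5
          have h6 : (w * (x : ℝ) ^ 4) ^ (1 / 4 : ℝ) = w ^ (1 / 4 : ℝ) * x := by
            rw [Real.mul_rpow hw.le (by positivity), ← Real.rpow_natCast (x : ℝ) 4,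
              ← Real.rpow_mul hx0.le]
            norm_num
          rw [h6] at h4
          rw [show 1 / (x : ℝ) * IG a (w * (x : ℝ) ^ 4) - G0 * (1 / (x : ℝ)) =
            -(1 / (x : ℝ) * (G0 - IG a (w * (x : ℝ) ^ 4))) by ring, abs_neg,
            abs_of_nonneg (mul_nonneg (by positivity) (by linarith))]
          calc 1 / (x : ℝ) * (G0 - IG a (w * (x : ℝ) ^ 4)) ≤ 1 / (x : ℝ) * (4 * (w ^ (1 / 4 : ℝ) * x)) :=
                mul_le_mul_of_nonneg_left h4 (by positivity)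
            _ = 4 * w ^ (1 / 4 : ℝ) := by field_simp
      _ = Q.card * (4 * w ^ (1 / 4 : ℝ)) := by rw [sum_const, nsmul_eq_mul]
      _ ≤ y * (4 * w ^ (1 / 4 : ℝ)) := by
          refine mul_le_mul_of_nonneg_right ?_ (by positivity)
          refine le_trans ?_ hYy
          have : Q.card ≤ Y := by
            refine (card_filter_le _ _).trans ?_
            rw [Nat.card_Icc]
            omega
          exact_mod_cast this
      _ = 4 := by
          rw [hy, mul_comm (4 : ℝ), ← mul_assoc, ← Real.rpow_add hw]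
          norm_num
  -- the large `x`
  have h2 : |∑ x ∈ P.filter (fun x => ¬ x ≤ Y), 1 / (x : ℝ) * IG a (w * (x : ℝ) ^ 4)| ≤ 16 * KK a := by
    rw [abs_of_nonneg (sum_nonneg fun x hx => by
      rw [mem_filter, hP, mem_filter, mem_Icc] at hx
      exact (term_le a hx.1.1.1 hw).1)]
    calc ∑ x ∈ P.filter (fun x => ¬ x ≤ Y), 1 / (x : ℝ) * IG a (w * (x : ℝ) ^ 4)
        ≤ ∑ x ∈ P.filter (fun x => ¬ x ≤ Y), KK a / w * (1 / (x : ℝ) ^ 5) := by
          refine sum_le_sum fun x hx => ?_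
          rw [mem_filter, hP, mem_filter, mem_Icc] at hx
          exact (term_le a hx.1.1.1 hw).2
      _ ≤ ∑ x ∈ Ioc Y N, KK a / w * (1 / (x : ℝ) ^ 5) := by
          refine sum_le_sum_of_subset_of_nonneg (fun x hx => ?_) fun x _ _ => by positivity
          rw [mem_filter, hP, mem_filter, mem_Icc] at hx
          rw [mem_Ioc]
          exact ⟨by omega, hx.1.1.2⟩
      _ = KK a / w * ∑ x ∈ Ioc Y N, (1 / (x : ℝ) ^ 5) := by rw [mul_sum]
      _ ≤ KK a / w * (1 / (Y : ℝ) ^ 4) := mul_le_mul_of_nonneg_left (tail5 hY1) (by positivity)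
      _ ≤ KK a / w * (16 * w) := by
          refine mul_le_mul_of_nonneg_left ?_ (by positivity)
          rw [div_le_iff₀ (by positivity)]
          have h3 : y ≤ 2 * Y := by linarith
          have h4 : y ^ 4 ≤ (2 * (Y : ℝ)) ^ 4 := pow_le_pow_left₀ (by linarith) h3 4
          calc (1 : ℝ) = y ^ 4 * w := hy4.symm
            _ ≤ (2 * (Y : ℝ)) ^ 4 * w := mul_le_mul_of_nonneg_right h4 hw.le
            _ = 16 * w * (Y : ℝ) ^ 4 := by ring
      _ = 16 * KK a := by field_simp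
  -- COP
  have h3 := cop (2 * d) Y (by omega) hY1
  rw [← hQ, Nat.totient_two_mul_of_odd hd] at h3
  have e1 : ((2 * d : ℕ) : ℝ) = 2 * d := by push_cast; ring
  rw [e1] at h3
  have h4 : C0 * sg (2 * d) ≤ C0 * (2 * sg d) := mul_le_mul_of_nonneg_left (sg_two hd) hC0.le
  set R : ℝ := (d.totient : ℝ) / (2 * d) with hR
  have hR0 : 0 ≤ R := by positivity
  have hR1 : R ≤ 1 := by
    rw [hR, div_le_one (by positivity)]
    have : (d.totient : ℝ) ≤ d := by exact_mod_cast Nat.totient_le d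
    linarith
  -- the logarithm
  have h5 : |Real.log Y - -Real.log w / 4| ≤ 1 := by
    have e2 : Real.log y = -Real.log w / 4 := by
      rw [hy, Real.log_rpow hw]
      ring
    rw [← e2]
    have h6 : Real.log Y ≤ Real.log y := Real.log_le_log hY0 hYy
    have h7 : Real.log y ≤ Real.log 2 + Real.log Y := by
      rw [← Real.log_mul (by norm_num) hY0.ne']
      exact Real.log_le_log (by linarith) (by linarith)
    have h8 := Real.log_two_lt_d9
    rw [abs_le]
    constructor <;> linarith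
  have h6 : |G0 * (∑ x ∈ Q, 1 / (x : ℝ) - R * Real.log Y)| ≤ G0 * (2 * C0 * sg d) := by
    rw [abs_mul, abs_of_pos hG]
    exact mul_le_mul_of_nonneg_left (by linarith) hG.le
  have h7 : |G0 * R * (Real.log Y - -Real.log w / 4)| ≤ G0 := by
    rw [abs_mul, abs_of_nonneg (by positivity)]
    calc G0 * R * |Real.log Y - -Real.log w / 4| ≤ G0 * 1 * 1 :=
          mul_le_mul (mul_le_mul_of_nonneg_left hR1 hG.le) h5 (abs_nonneg _) (by positivity)
      _ = G0 := by ring
  have e3 : TT a N d g w - G0 * R * (-Real.log w / 4) =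
      (∑ x ∈ Q, 1 / (x : ℝ) * IG a (w * (x : ℝ) ^ 4) - G0 * ∑ x ∈ Q, 1 / (x : ℝ)) +
      ∑ x ∈ P.filter (fun x => ¬ x ≤ Y), 1 / (x : ℝ) * IG a (w * (x : ℝ) ^ 4) +
      G0 * (∑ x ∈ Q, 1 / (x : ℝ) - R * Real.log Y) + G0 * R * (Real.log Y - -Real.log w / 4) := by
    rw [hsplit]
    ring
  rw [e3]
  calc _ ≤ 4 + 16 * KK a + G0 * (2 * C0 * sg d) + G0 := by
        refine (abs_add_le _ _).trans (add_le_add ((abs_add_le _ _).trans
          (add_le_add ((abs_add_le _ _).trans (add_le_add h1 h2)) h6)) h7)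
    _ ≤ (4 + 16 * KK a) * sg d + G0 * (2 * C0 * sg d) + G0 * sg d := by
        have : 4 + 16 * KK a ≤ (4 + 16 * KK a) * sg d := le_mul_of_one_le_right (by positivity) hsg
        have : G0 ≤ G0 * sg d := le_mul_of_one_le_right hG.le hsg
        linarith
    _ = _ := by ring

/-- `1/√2` -/
def th2 : ℝ := 1 / Real.sqrt 2

theorem th2_pos : 0 < th2 := by unfold th2; positivity

theorem th2_lt : th2 < 1 := by
  unfold th2
  rw [div_lt_one (by positivity)]
  exact Real.lt_sqrt_of_sq_lt (by norm_num)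

theorem u_sum : Summable fun i : ℕ => ((i : ℝ) + 1) * th2 ^ i := by
  have h1 : ‖th2‖ < 1 := by
    rw [Real.norm_of_nonneg th2_pos.le]
    exact th2_lt
  have h2 := summable_pow_mul_geometric_of_norm_lt_one 1 h1
  have h3 := summable_geometric_of_norm_lt_one h1
  refine (h2.add h3).congr fun i => ?_
  rw [pow_one]
  ring

/-- the constant -/
def SS : ℝ := ∑' i : ℕ, ((i : ℝ) + 1) * th2 ^ i

theorem u_nonneg (i : ℕ) : 0 ≤ ((i : ℝ) + 1) * th2 ^ i := by
  have := th2_pos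
  positivity

theorem SS_sum (N : ℕ) : ∑ i ∈ range N, ((i : ℝ) + 1) * th2 ^ i ≤ SS :=
  u_sum.sum_le_tsum _ fun i _ => u_nonneg i

theorem SS_one (i : ℕ) : ((i : ℝ) + 1) * th2 ^ i ≤ SS :=
  u_sum.le_tsum i fun j _ => u_nonneg j

theorem SS_nonneg : 0 ≤ SS := tsum_nonneg u_nonneg

theorem sqrt_two_pow (i : ℕ) : Real.sqrt ((2 : ℝ) ^ i) = Real.sqrt 2 ^ i := by
  rw [← Real.sqrt_sq (pow_nonneg (Real.sqrt_nonneg 2) i), ← pow_mul, mul_comm i 2, pow_mul,
    Real.sq_sqrt (by norm_num)]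

theorem II_eq (p : Par) (N d g : ℕ) (z : ℝ) : II p N d g z =
    ∑ i ∈ range N, (p.η / Real.sqrt 2) ^ i * TT p.a N d g ((4 : ℝ) ^ i * ((g : ℝ) ^ 2 * z)) := by
  unfold II TT
  refine sum_congr rfl fun i _ => ?_
  rw [mul_sum]
  refine sum_congr rfl fun x _ => ?_
  have h1 : ((2 : ℝ) ^ i * ((g : ℝ) * (x : ℝ) ^ 2)) ^ 2 * z =
      (4 : ℝ) ^ i * ((g : ℝ) ^ 2 * z) * (x : ℝ) ^ 4 := by
    rw [show (4 : ℝ) = 2 ^ 2 by norm_num, ← pow_mul]
    ring
  rw [h1, sqrt_two_pow, div_pow]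
  generalize IG p.a ((4 : ℝ) ^ i * ((g : ℝ) ^ 2 * z) * (x : ℝ) ^ 4) = I
  rw [← mul_assoc, div_mul_div_comm, mul_one]

theorem rho_le (p : Par) (hp : p.ok) : |p.η / Real.sqrt 2| ≤ th2 := by
  unfold th2
  rw [abs_div, abs_of_nonneg (Real.sqrt_nonneg 2)]
  refine div_le_div_of_nonneg_right ?_ (Real.sqrt_nonneg 2)
  rcases hp.2.2.2 with h | h | h <;> rw [h] <;> norm_num

theorem t_INN (cop : S_COP) : S_INN := by
  obtain ⟨Ca, hCa, ha⟩ := one_small cop 0
  obtain ⟨Cb, hCb, hb⟩ := one_small cop 1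
  set C1 := Ca + Cb with hC1
  set K := KK 0 + KK 1 with hK
  set G := gm (1 / 2 + (0 : ℕ)) + gm (1 / 2 + (1 : ℕ)) with hG
  have hK0 := KK_nonneg 0
  have hK1 := KK_nonneg 1
  have hG0 := gm_pos 0
  have hG1 := gm_pos 1
  have hSS := SS_nonneg
  have ht0 := th2_pos
  have ht1 := th2_lt
  have hB : 0 < 1 - th2 := by linarith
  refine ⟨(C1 + 2 * K + G) * SS + G * SS + G * SS / (1 - th2) + 2 * K * SS + 1, by positivity,
    fun p hp d hd g N hg hN => ?_⟩
  have hd0 : d ≠ 0 := by rintro rfl; exact absurd hd (by decide)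
  have hd1 : (1 : ℝ) ≤ d := by exact_mod_cast Nat.pos_of_ne_zero hd0
  have hr1 : (1 : ℝ) ≤ p.r := by exact_mod_cast hp.2.1.1
  have hg1 : (1 : ℝ) ≤ g := by exact_mod_cast hg
  have hsg := sg_one_le hd
  have hrd : 1 ≤ (p.r : ℝ) * d := by nlinarith
  have hN' : (p.r : ℝ) * d ≤ N := by exact_mod_cast hN
  set ρ := p.η / Real.sqrt 2 with hρ
  have hρ1 : |ρ| ≤ th2 := rho_le p hp
  have hρi : ∀ i : ℕ, |ρ ^ i| ≤ th2 ^ i := fun i => by
    rw [abs_pow]
    exact pow_le_pow_left₀ (abs_nonneg _) hρ1 i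
  set w0 : ℝ := (g : ℝ) ^ 2 * (1 / (p.r * (d : ℝ))) with hw0
  have hw0p : 0 < w0 := by positivity
  -- constants for `p.a`
  have hka : KK p.a ≤ K := by rcases hp.2.2.1 with h | h <;> rw [h] <;> linarith
  have hka0 := KK_nonneg p.a
  have hga : gm (1 / 2 + p.a) ≤ G := by
    rcases hp.2.2.1 with h | h <;> rw [h] <;> linarith
  have hga0 := gm_pos p.a
  have hone : ∀ w : ℝ, 0 < w → w ≤ 1 → (∀ x : ℕ, (x : ℝ) ^ 4 * w ≤ 1 → x ≤ N ∧ g * x ^ 2 ≤ N) →
      |TT p.a N d g w - gm (1 / 2 + p.a) * ((d.totient : ℝ) / (2 * d)) * (-Real.log w / 4)| ≤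
        C1 * H28.BR4.sg d := by
    intro w hw hw1 hc
    rcases hp.2.2.1 with h | h
    · rw [h]
      refine (ha d g N w hd hw hw1 hc).trans ?_
      exact mul_le_mul_of_nonneg_right (by linarith) (by linarith)
    · rw [h]
      refine (hb d g N w hd hw hw1 hc).trans ?_
      exact mul_le_mul_of_nonneg_right (by linarith) (by linarith)
  set g0 := gm (1 / 2 + p.a) with hg0
  rw [II_eq]
  rw [← hρ, ← hw0]
  refine ⟨fun hgr => ?_, fun hgr => ?_⟩
  · have hgr' : (g : ℝ) ^ 2 ≤ p.r * (d : ℝ) := by exact_mod_cast hgr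
    have hw01 : w0 ≤ 1 := by
      rw [hw0, mul_one_div, div_le_one (by positivity)]
      exact hgr'
    set L : ℝ := Real.log (p.r * (d : ℝ) / (g : ℝ) ^ 2) with hL
    have hLw : Real.log w0 = -L := by
      rw [hL, hw0, mul_one_div, ← Real.log_inv, inv_div]
    have hL0 : 0 ≤ L := by
      have := Real.log_nonpos hw0p.le hw01
      linarith
    have hLN : L ≤ N := by
      have h1 : p.r * (d : ℝ) / (g : ℝ) ^ 2 ≤ N :=
        (div_le_self (by positivity) (one_le_pow₀ hg1)).trans hN'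
      have h2 := Real.log_le_sub_one_of_pos (show 0 < p.r * (d : ℝ) / (g : ℝ) ^ 2 by positivity)
      rw [← hL] at h2
      linarith
    set R : ℝ := (d.totient : ℝ) / (2 * d) with hR
    have hR0 : 0 ≤ R := by positivity
    have hR1 : R ≤ 1 := by
      rw [hR, div_le_one (by positivity)]
      have : (d.totient : ℝ) ≤ d := by exact_mod_cast Nat.totient_le d
      linarith
    have hl4 : 0 < Real.log 4 := Real.log_pos (by norm_num)
    have hl4' : Real.log 4 ≤ 2 := by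
      rw [show (4 : ℝ) = 2 ^ 2 by norm_num, Real.log_pow]
      have := Real.log_two_lt_d9
      push_cast
      linarith
    have hTi : ∀ i : ℕ, |TT p.a N d g ((4 : ℝ) ^ i * w0) - g0 * R * ((L - i * Real.log 4) / 4)| ≤
        (C1 + 2 * K + G) * ((i : ℝ) + 1) * H28.BR4.sg d := by
      intro i
      have h4 : (1 : ℝ) ≤ 4 ^ i := one_le_pow₀ (by norm_num)
      have hwp : 0 < (4 : ℝ) ^ i * w0 := by positivity
      have hlog : -Real.log ((4 : ℝ) ^ i * w0) = L - i * Real.log 4 := by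
        rw [Real.log_mul (by positivity) hw0p.ne', Real.log_pow, hLw]
        ring
      have hi0 : (0 : ℝ) ≤ i := Nat.cast_nonneg i
      rcases le_or_gt ((4 : ℝ) ^ i * w0) 1 with h1 | h1
      · have h2 := hone _ hwp h1 (by
          intro x hx
          rcases Nat.eq_zero_or_pos x with rfl | hx0
          · simp
          · have hx1 : (1 : ℝ) ≤ x := by exact_mod_cast hx0
            have h3 : (x : ℝ) ^ 4 * w0 ≤ 1 := by
              refine le_trans ?_ hx
              refine mul_le_mul_of_nonneg_left ?_ (by positivity)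
              nlinarith
            have h5 : ((g : ℝ) * (x : ℝ) ^ 2) ^ 2 ≤ N := by
              rw [hw0] at h3
              have h6 : (x : ℝ) ^ 4 * (g : ℝ) ^ 2 ≤ p.r * d := by
                rw [mul_one_div, ← mul_div_assoc, div_le_one (by positivity)] at h3
                exact h3
              calc ((g : ℝ) * (x : ℝ) ^ 2) ^ 2 = (x : ℝ) ^ 4 * (g : ℝ) ^ 2 := by ring
                _ ≤ _ := h6.trans hN'
            have h6 : (g * x ^ 2) ^ 2 ≤ N := by exact_mod_cast h5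
            have h7 : 1 ≤ g * x ^ 2 := Nat.mul_pos hg (by positivity)
            have h8 : g * x ^ 2 ≤ (g * x ^ 2) ^ 2 := Nat.le_self_pow (by norm_num) _
            have h9 : x ≤ g * x ^ 2 := by
              calc x ≤ x ^ 2 := Nat.le_self_pow (by norm_num) _
                _ ≤ g * x ^ 2 := Nat.le_mul_of_pos_left _ hg
            exact ⟨by omega, by omega⟩)
        rw [hlog] at h2
        refine h2.trans ?_
        have : C1 ≤ (C1 + 2 * K + G) * ((i : ℝ) + 1) := by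
          have h9 : 0 ≤ 2 * K + G := by linarith
          have h10 : 0 ≤ C1 := by linarith
          nlinarith
        exact mul_le_mul_of_nonneg_right this (by linarith)
      · have h2 := TT_le p.a N d g hwp
        have h3 := TT_nonneg p.a N d g hwp
        have h5 : 2 * KK p.a / ((4 : ℝ) ^ i * w0) ≤ 2 * K := by
          refine (div_le_self (by linarith) h1.le).trans (by linarith)
        have h6 : Real.log ((4 : ℝ) ^ i * w0) > 0 := Real.log_pos h1
        have h7 : |(L - i * Real.log 4) / 4| ≤ i := by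
          rw [abs_le]
          constructor <;> nlinarith
        have h8 : |g0 * R * ((L - i * Real.log 4) / 4)| ≤ G * i := by
          rw [abs_mul, abs_of_nonneg (by positivity)]
          calc g0 * R * |(L - i * Real.log 4) / 4| ≤ G * 1 * i :=
                mul_le_mul (mul_le_mul hga hR1 hR0 (by linarith)) h7 (abs_nonneg _) (by linarith)
            _ = G * i := by ring
        calc _ ≤ |TT p.a N d g ((4 : ℝ) ^ i * w0)| + |g0 * R * ((L - i * Real.log 4) / 4)| := abs_sub _ _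
          _ ≤ 2 * K + G * i := by
              rw [abs_of_nonneg h3]
              exact add_le_add (h2.trans h5) h8
          _ ≤ (C1 + 2 * K + G) * ((i : ℝ) + 1) * 1 := by
              have h10 : 0 ≤ C1 := by linarith
              have h11 : 0 ≤ K * i := mul_nonneg (by linarith) hi0
              have h12 : 0 ≤ C1 * i := mul_nonneg h10 hi0
              have h13 : 0 ≤ G := by linarith
              nlinarith
          _ ≤ _ := mul_le_mul_of_nonneg_left hsg (by positivity)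
    -- the sum
    have e1 : ∑ i ∈ range N, ρ ^ i * TT p.a N d g ((4 : ℝ) ^ i * w0) - g0 * S0 p.η * R * (L / 4) =
        ∑ i ∈ range N, ρ ^ i * (TT p.a N d g ((4 : ℝ) ^ i * w0) - g0 * R * ((L - i * Real.log 4) / 4)) +
        g0 * R * (L / 4) * (∑ i ∈ range N, ρ ^ i - S0 p.η) -
        g0 * R * (Real.log 4 / 4) * ∑ i ∈ range N, (i : ℝ) * ρ ^ i := by
      have e2 : ∑ i ∈ range N, ρ ^ i * (TT p.a N d g ((4 : ℝ) ^ i * w0) -
          g0 * R * ((L - i * Real.log 4) / 4)) =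
          ∑ i ∈ range N, ρ ^ i * TT p.a N d g ((4 : ℝ) ^ i * w0) -
            (g0 * R * (L / 4) * ∑ i ∈ range N, ρ ^ i -
            g0 * R * (Real.log 4 / 4) * ∑ i ∈ range N, (i : ℝ) * ρ ^ i) := by
        rw [mul_sum, mul_sum, ← sum_sub_distrib, ← sum_sub_distrib]
        refine sum_congr rfl fun i _ => ?_
        ring
      rw [e2]
      ring
    have b1 : |∑ i ∈ range N, ρ ^ i * (TT p.a N d g ((4 : ℝ) ^ i * w0) -
        g0 * R * ((L - i * Real.log 4) / 4))| ≤ (C1 + 2 * K + G) * SS * H28.BR4.sg d := by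
      calc _ ≤ ∑ i ∈ range N, ((C1 + 2 * K + G) * H28.BR4.sg d) * (((i : ℝ) + 1) * th2 ^ i) := by
            refine (abs_sum_le_sum_abs _ _).trans (sum_le_sum fun i _ => ?_)
            rw [abs_mul]
            calc |ρ ^ i| * _ ≤ th2 ^ i * ((C1 + 2 * K + G) * ((i : ℝ) + 1) * H28.BR4.sg d) :=
                  mul_le_mul (hρi i) (hTi i) (abs_nonneg _) (by positivity)
              _ = _ := by ring
        _ = ((C1 + 2 * K + G) * H28.BR4.sg d) * ∑ i ∈ range N, ((i : ℝ) + 1) * th2 ^ i := by rw [mul_sum]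
        _ ≤ ((C1 + 2 * K + G) * H28.BR4.sg d) * SS := by
            refine mul_le_mul_of_nonneg_left (SS_sum N) ?_
            have h10 : 0 ≤ C1 + 2 * K + G := by linarith
            exact mul_nonneg h10 (by linarith)
        _ = _ := by ring
    have hρlt : ρ < 1 := lt_of_le_of_lt (le_trans (le_abs_self ρ) hρ1) ht1
    have hρ2 : 1 - th2 ≤ 1 - ρ := by linarith [le_trans (le_abs_self ρ) hρ1]
    have b2 : |g0 * R * (L / 4) * (∑ i ∈ range N, ρ ^ i - S0 p.η)| ≤ G * SS / (1 - th2) := by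
      have h1 : ∑ i ∈ range N, ρ ^ i - S0 p.η = -(ρ ^ N / (1 - ρ)) := by
        rw [geom_sum_eq hρlt.ne]
        unfold S0
        rw [← hρ]
        have h2 : ρ - 1 ≠ 0 := by linarith
        have h3 : 1 - ρ ≠ 0 := by linarith
        field_simp
        ring
      have h4 : |ρ ^ N / (1 - ρ)| ≤ th2 ^ N / (1 - th2) := by
        rw [abs_div, abs_of_pos (by linarith : 0 < 1 - ρ)]
        exact div_le_div₀ (by positivity) (hρi N) hB hρ2
      rw [h1, abs_mul, abs_neg, abs_of_nonneg (by positivity)]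
      calc g0 * R * (L / 4) * |ρ ^ N / (1 - ρ)| ≤ (G * 1 * ((N : ℝ) + 1)) * (th2 ^ N / (1 - th2)) := by
            refine mul_le_mul ?_ h4 (abs_nonneg _) (by positivity)
            refine mul_le_mul (mul_le_mul hga hR1 hR0 (by linarith)) (by linarith) (by positivity) (by linarith)
        _ = G * (((N : ℝ) + 1) * th2 ^ N) / (1 - th2) := by ring
        _ ≤ G * SS / (1 - th2) := by
            refine div_le_div_of_nonneg_right ?_ hB.le
            exact mul_le_mul_of_nonneg_left (SS_one N) (by linarith)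
    have b3 : |g0 * R * (Real.log 4 / 4) * ∑ i ∈ range N, (i : ℝ) * ρ ^ i| ≤ G * SS := by
      rw [abs_mul, abs_of_nonneg (by positivity)]
      have h1 : |∑ i ∈ range N, (i : ℝ) * ρ ^ i| ≤ SS := by
        refine le_trans ((abs_sum_le_sum_abs _ _).trans (sum_le_sum fun i _ => ?_)) (SS_sum N)
        rw [abs_mul, abs_of_nonneg (Nat.cast_nonneg i)]
        exact mul_le_mul (by linarith) (hρi i) (abs_nonneg _) (by positivity)
      calc g0 * R * (Real.log 4 / 4) * |∑ i ∈ range N, (i : ℝ) * ρ ^ i| ≤ (G * 1 * 1) * SS := by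
            refine mul_le_mul ?_ h1 (abs_nonneg _) (by positivity)
            exact mul_le_mul (mul_le_mul hga hR1 hR0 (by linarith)) (by linarith) (by positivity) (by linarith)
        _ = G * SS := by ring
    rw [e1]
    calc _ ≤ (C1 + 2 * K + G) * SS * H28.BR4.sg d + G * SS / (1 - th2) + G * SS :=
          (abs_sub _ _).trans (add_le_add ((abs_add_le _ _).trans (add_le_add b1 b2)) b3)
      _ ≤ (C1 + 2 * K + G) * SS * H28.BR4.sg d + G * SS / (1 - th2) * H28.BR4.sg d +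
          G * SS * H28.BR4.sg d + (2 * K * SS + 1) * H28.BR4.sg d := by
          have h1 : G * SS / (1 - th2) ≤ G * SS / (1 - th2) * H28.BR4.sg d :=
            le_mul_of_one_le_right (by positivity) hsg
          have h2 : G * SS ≤ G * SS * H28.BR4.sg d := le_mul_of_one_le_right (by positivity) hsg
          have h3 : 0 ≤ (2 * K * SS + 1) * H28.BR4.sg d := mul_nonneg (by positivity) (by linarith)
          linarith
      _ = _ := by ring
  · have hgr' : p.r * (d : ℝ) < (g : ℝ) ^ 2 := by exact_mod_cast hgr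
    have e1 : p.r * (d : ℝ) / (g : ℝ) ^ 2 = 1 / w0 := by
      rw [hw0]
      field_simp
    rw [e1]
    calc |∑ i ∈ range N, ρ ^ i * TT p.a N d g ((4 : ℝ) ^ i * w0)|
        ≤ ∑ i ∈ range N, (2 * K * (1 / w0)) * (((i : ℝ) + 1) * th2 ^ i) := by
          refine (abs_sum_le_sum_abs _ _).trans (sum_le_sum fun i _ => ?_)
          have h4 : (1 : ℝ) ≤ 4 ^ i := one_le_pow₀ (by norm_num)
          have hwp : 0 < (4 : ℝ) ^ i * w0 := by positivity
          have h2 := TT_le p.a N d g hwp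
          have h3 := TT_nonneg p.a N d g hwp
          have h5 : 2 * KK p.a / ((4 : ℝ) ^ i * w0) ≤ 2 * K * (1 / w0) := by
            rw [mul_one_div]
            refine div_le_div₀ (by linarith) (by linarith) hw0p ?_
            nlinarith
          have hi0 : (0 : ℝ) ≤ i := Nat.cast_nonneg i
          rw [abs_mul, abs_of_nonneg h3]
          calc |ρ ^ i| * TT p.a N d g ((4 : ℝ) ^ i * w0) ≤ th2 ^ i * (2 * K * (1 / w0)) :=
                mul_le_mul (hρi i) (h2.trans h5) h3 (by positivity)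
            _ ≤ (((i : ℝ) + 1) * th2 ^ i) * (2 * K * (1 / w0)) := by
                refine mul_le_mul_of_nonneg_right ?_ (by positivity)
                have := pow_pos ht0 i
                nlinarith
            _ = _ := by ring
      _ = (2 * K * (1 / w0)) * ∑ i ∈ range N, ((i : ℝ) + 1) * th2 ^ i := by rw [mul_sum]
      _ ≤ (2 * K * (1 / w0)) * SS := mul_le_mul_of_nonneg_left (SS_sum N) (by positivity)
      _ = 2 * K * SS * (1 / w0) := by ring
      _ ≤ _ := by
          refine mul_le_mul_of_nonneg_right ?_ (by positivity)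
          have h1 : 0 ≤ (C1 + 2 * K + G) * SS := by positivity
          have h2 : 0 ≤ G * SS := by positivity
          have h3 : 0 ≤ G * SS / (1 - th2) := by positivity
          linarith

end

end Pool.Agent.H40.BRI
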